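import Pool.Agent.T2H05.GD.Pub
import Pool.Agent.T2H05.GD.Conj

/-!
# The Gross-Deligne conjecture and endomorphisms of Hodge structures

`T` is the cohomology of the varieties of a class `𝒱` of smooth projective varieties over the field
of algebraic numbers, closed under products (`PeriodData`, `PeriodTheory`, `HodgeDirect`), `K` is an
abelian field, for example `ℚ(μ_N)`. For every cyclic imaginary subfield `F` of `K` let `ref F` be an
admissible triple whose type is not orthogonal to the injective characters of `Gal(F/ℚ)`, for example
the first cohomology of the abelian variety with complex multiplication of type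
`{1, g, …, g^(n-1)}`, for which the conjecture is the theorem of Anderson.

The following statements are equivalent.

1. The conjecture of Gross and Deligne for all admissible triples with fields contained in `K`.
2. The conjecture for the triples `ref F`; and, for all admissible triples `(H, F, ι)` with `F`
  contained in `K`, all endomorphisms of the rational Hodge structure `H` (not only the elements of
  `F`) map de Rham classes to de Rham classes.
3. The conjecture for the triples `ref F`; and, for all cyclic imaginary `F` contained in `K` and all
  admissible triples `(H, F, ι)` such that `H` consists of Hodge classes, the one endomorphism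
  `j(x) ↦ j(conj x)` of `H = j(F)`, given by the complex conjugation of `F`, maps de Rham classes to
  de Rham classes.

So, given the theorem of Anderson, the conjecture says exactly that the Hodge classes in
`H ⊗ H^∨` are de Rham classes, and it is enough to know this for one class in `H ⊗ H^∨`, `H` a space
of Hodge classes with multiplication by a cyclic imaginary field.
-/

set_option autoImplicit false

universe v

namespace Pool.Agent.Results.MP_b23d8d_ag.EndomorphismsDeRham

open Pool.Agent.H914 Pool.Agent.T2H05.GD

/-- The Hodge pieces of every `H^m(X)` are independent (their sum is direct). -/
def HodgeDirect {𝒱 : VarClass Qbar} (T : PeriodData.{v} 𝒱) : Prop :=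
  ∀ X m, iSupIndep (T.hodge X m)

/-- **The Gross-Deligne conjecture and endomorphisms of Hodge structures.** -/
theorem result {𝒱 : VarClass Qbar} (T : PeriodData.{v} 𝒱) (hT : PeriodTheory T)
    (hI : HodgeDirect T) (K : IntermediateField ℚ ℂ) (hK : AbelianField K)
    (ref : ∀ F, F ≤ K → CyclicImaginary F → Reference T F) :
    List.TFAE [∀ F, F ≤ K → GDFor T F,
      (∀ F (h : F ≤ K) (hF : CyclicImaginary F), GDAt T (ref F h hF).j (ref F h hF).p (cond F)) ∧
        ∀ F, F ≤ K → EndFor T F,
      (∀ F (h : F ≤ K) (hF : CyclicImaginary F), GDAt T (ref F h hF).j (ref F h hF).p (cond F)) ∧
        ∀ F, F ≤ K → CyclicImaginary F → ConjFor T F] :=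
  mainC T hT.isPeriodTheory hI K hK ref

end Pool.Agent.Results.MP_b23d8d_ag.EndomorphismsDeRham
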