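import Pool.Agent.T2H05.GD.Pub

/-!
# The Gross-Deligne conjecture is a statement on Hodge classes with cyclic multiplication

`T` is the cohomology of the varieties of a class `𝒱` of smooth projective varieties over the field
of algebraic numbers, closed under products, with its Betti and de Rham structures, Hodge pieces,
exterior products and polarisations (`PeriodData`, `PeriodTheory`). An admissible triple
`(H, F, ι)` is given by `H = j(F)`, `j : F → H^m(X)`, with `x ∈ F` acting by `j(y) ↦ j(x y)`.

Let `K` be an abelian field, for example `ℚ(μ_N)`. For every cyclic imaginary subfield `F` of `K` let
`ref F` be one admissible triple for `F`, whose type `p` is not orthogonal to the injective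
characters of `Gal(F/ℚ)`; for example the first cohomology of an abelian variety with complex
multiplication by `F` and of the CM type `{1, g, …, g^(n-1)}`, `g` a generator of the Galois group of
order `2n`. For these the conjecture is a theorem of Anderson.

The conjecture of Gross and Deligne holds for all admissible triples with fields contained in `K`
(all `X`, all `m`, all types, all `ε` and all `λ`) if and only if it holds for the triples `ref F`,
and if for every cyclic imaginary subfield `F` of `K` and every admissible triple `(H, F, ι)` in
`H^(2k)(X)` such that `H` consists of Hodge classes the periods are `(2 π i)^k` up to algebraic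
factors. In the second condition there are no values of the gamma function any more, and no abelian
fields other than the cyclic imaginary subfields of `K`. As `K` is arbitrary, this contains the
corresponding statement for the whole conjecture.

The proof contains a proof of the theorem of Koblitz and Ogus in the form needed (the dependence of
the gamma products on the type), from the reflection and multiplication formulas and the
nonvanishing of `L(1, χ)`; the reduction to cyclic fields by norms to subfields (tensor products
over `F` of the Galois twists of `H`), the polarisations for the even characters; and the fact that
for two types `p`, `p₀` of a field `F` the type of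
`⨂_t (H^(t⁻¹))^(⊗ p₀(t)) ⊗ ⨂_t (H₀^(c t⁻¹))^(⊗ p(t))` is constant.
-/

set_option autoImplicit false

universe v

namespace Pool.Agent.Results.MP_b23d8d_ag.HodgeClasses

open Pool.Agent.H914 Pool.Agent.T2H05.GD

/-- **The Gross-Deligne conjecture and Hodge classes with cyclic multiplication, for the subfields
of an abelian field `K`.** -/
theorem result {𝒱 : VarClass Qbar} (T : PeriodData.{v} 𝒱) (hT : PeriodTheory T)
    (K : IntermediateField ℚ ℂ) (hK : AbelianField K)
    (ref : ∀ F, F ≤ K → CyclicImaginary F → Reference T F) :
    (∀ F, F ≤ K → GDFor T F) ↔
      ∀ F (h : F ≤ K) (hF : CyclicImaginary F),
        GDAt T (ref F h hF).j (ref F h hF).p (cond F) ∧ HodgeFor T F :=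
  mainL T hT.isPeriodTheory K hK ref

end Pool.Agent.Results.MP_b23d8d_ag.HodgeClasses
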