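import Pool.Agent.T2H05.GD.Pub
import Pool.Agent.T2H05.GD.OneAll

/-!
# The Gross-Deligne conjecture: one field and one type suffice

`T` is the cohomology of the varieties of a class `𝒱` of smooth projective varieties over the field
of algebraic numbers, closed under products (`PeriodData`, `PeriodTheory`), `K` is an abelian field,
not contained in `ℝ`, for example `ℚ(μ_N)`, and `R` is an admissible triple with the field `K` whose
type `q` is not orthogonal to the odd characters of `Gal(K/ℚ)` (`Generator`).

The following are equivalent:
(1) the conjecture for all admissible triples with fields `F ≤ K`;
(2) the conjecture for all admissible triples with the field `K`;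
(3) the conjecture for the admissible triples `(H, K, ι)` whose type is `q` plus a constant;
(4) the conjecture for `R`, and: if `H = j(K)` consists of Hodge classes of degree `2 k`, then the
    periods are `(2 π i)^k`, up to algebraic factors;
(5) the conjecture for `R`, and, for the type `p` of one triple with the field `K` (which may be
    degenerate), the conjecture for the admissible triples `(H, K, ι)` whose type is `p` plus a
    constant;
(6) the conjecture for `R`, and for every triple `h` with the field `K` that consists of Hodge
    classes there is a triple `t` with the field `K` such that every series `t`, `t ⊗ h`,
    `t ⊗ h ⊗ h`, … (triples in the cohomology of the products of the varieties, with the types of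
    the tensor products over `K`) has two members that satisfy the relation of Gross and Deligne.

So, if the relation holds for `R` but not for some triple with a field `F ≤ K`, then there is a
triple `h` of Hodge classes with the field `K` such that every triple `t` with the field `K` is the
first member of a series `t`, `t ⊗ h`, `t ⊗ h ⊗ h`, …, whose types are that of `t` plus constants, at
most one of which satisfies the relation.

Example: tensor products over `K` of the first cohomology of abelian varieties with complex
multiplication by `K` have all types `q : Gal(K/ℚ) → ℕ` with `q(s) + q(κ s)` constant, `κ` complex
conjugation, and generic ones among these are generators; for them the conjecture is Anderson's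
theorem. So the conjecture for `ℚ(μ_N)` and all its subfields is the statement on Hodge classes with
multiplication by `ℚ(μ_N)`, and follows from the conjecture for one type and the field `ℚ(μ_N)`.
-/

set_option autoImplicit false

universe v

namespace Pool.Agent.Results.MP_b23d8d_ag.OneField

open Pool.Agent.H914 Pool.Agent.T2H05.GD

/-- **One field and one type imply the conjecture of Gross and Deligne for all subfields and all
types.** -/
theorem result {𝒱 : VarClass Qbar} (T : PeriodData.{v} 𝒱) (hT : PeriodTheory T)
    (K : IntermediateField ℚ ℂ) (hK : AbelianField K) (him : ∃ x ∈ K, x.im ≠ 0)
    (R : Generator T K) :
    List.TFAE [∀ F, F ≤ K → GDFor T F, GDFor T K, GDType T K R.p,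
      R.toTriple.GD ∧ HodgeFor T K, R.toTriple.GD ∧ ∃ t : Triple T K, GDType T K t.p,
      R.toTriple.GD ∧ ∀ (h : Triple T K) (k : ℕ), h.p = (fun _ => k) → ∃ t, ¬ Series h t] :=
  oneAll T hT.isPeriodTheory K hK him R

end Pool.Agent.Results.MP_b23d8d_ag.OneField
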