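import Pool.Agent.T2H05.GD.Pub
import Pool.Agent.T2H05.GD.OneT

/-!
# The Gross-Deligne conjecture: one type for each cyclic field suffices

`T` is the cohomology of the varieties of a class `𝒱` of smooth projective varieties over the field
of algebraic numbers, closed under products (`PeriodData`, `PeriodTheory`), `K` is an abelian field,
for example `ℚ(μ_N)`. For every cyclic imaginary subfield `F` of `K` let `ref F` be an admissible
triple whose type `q_F` is not orthogonal to the injective characters of `Gal(F/ℚ)`.

The conjecture of Gross and Deligne holds for all admissible triples with fields contained in `K`
(and for all types) if and only if, for every cyclic imaginary subfield `F` of `K`, it holds for the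
admissible triples `(H, F, ι)` whose type is `q_F` plus a constant.

Examples. (1) `q_F` is the CM type `{1, g, …, g^(n-1)}`, `g` a generator of `Gal(F/ℚ)`, `ref F` the
first cohomology of a CM abelian variety: it suffices to know the conjecture for Hodge structures of
level one with cyclic multiplication of this one type. (2) `q_F = (2, 1, …, 1, 0)`: it suffices to
know it for Hodge structures of `K3` type (up to a Tate twist) with multiplication by cyclic
imaginary fields.
-/

set_option autoImplicit false

universe v

namespace Pool.Agent.Results.MP_b23d8d_ag.OneTypePerField

open Pool.Agent.H914 Pool.Agent.T2H05.GD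

/-- **The Gross-Deligne conjecture for one type (up to constants) for each cyclic imaginary field
implies the conjecture for all types and all abelian fields.** -/
theorem result {𝒱 : VarClass Qbar} (T : PeriodData.{v} 𝒱) (hT : PeriodTheory T)
    (K : IntermediateField ℚ ℂ) (hK : AbelianField K)
    (ref : ∀ F, F ≤ K → CyclicImaginary F → Reference T F) :
    (∀ F, F ≤ K → GDFor T F) ↔
      ∀ F (h : F ≤ K) (hF : CyclicImaginary F), GDType T F (ref F h hF).p :=
  mainT T hT.isPeriodTheory K hK ref

end Pool.Agent.Results.MP_b23d8d_ag.OneTypePerField
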